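import Pool.Agent.Lib.MP_7c1d9a_an.Real

set_option autoImplicit false

open MeasureTheory

namespace Pool.Agent.Results.MP_7c1d9a_an.NoImprovedHolder

/-- For every `c > 0` there is a nonnegative bounded measurable function `f` with compact support
whose autoconvolution `g x = ∫ f t * f (x - t) dt` (continuous, bounded, integrable and square
integrable, with positive integral) satisfies `(1 - c) * (∫ g) * (sup g) < ∫ g ^ 2`. -/
theorem result (c : ℝ) (hc : 0 < c) :
    ∃ f : ℝ → ℝ, (∀ x, 0 ≤ f x) ∧ Measurable f ∧ (∃ B : ℝ, ∀ x, f x ≤ B) ∧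
      (∃ R : ℝ, ∀ x, R < |x| → f x = 0) ∧ Integrable f volume ∧
      Integrable (fun x => f x ^ 2) volume ∧
      Continuous (fun x => ∫ t, f t * f (x - t)) ∧
      Integrable (fun x => ∫ t, f t * f (x - t)) volume ∧
      Integrable (fun x => (∫ t, f t * f (x - t)) ^ 2) volume ∧
      BddAbove (Set.range fun x => ∫ t, f t * f (x - t)) ∧
      (0 < ∫ x, ∫ t, f t * f (x - t)) ∧
      (1 - c) * (∫ x, ∫ t, f t * f (x - t)) * (⨆ x, ∫ t, f t * f (x - t)) <
        ∫ x, (∫ t, f t * f (x - t)) ^ 2 :=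
  Pool.Agent.MP7c1d9a.exists_real hc

end Pool.Agent.Results.MP_7c1d9a_an.NoImprovedHolder
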